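import Mathlib
import Pool.Agent.H576.CR.Stm

/-!
# Project CR (helper576), tasks EXP and SQ: moments of Rademacher sums
-/

set_option autoImplicit false

namespace Pool.Agent.H766

open Finset
open Pool.Agent.H576.CR

namespace CRE

variable {ι : Type} [DecidableEq ι]

/-- the partial sum over `s` -/
noncomputable def ps (s : Finset ι) (x : ι → ℝ) (e : ι → Bool) : ℝ := ∑ i ∈ s, sg (e i) * x i

/-- the flip of one sign -/
def fl (i : ι) (e : ι → Bool) : ι → Bool := Function.update e i (!e i)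

theorem fl_fl (i : ι) : Function.Involutive (fl i) := by
  intro e
  unfold fl
  simp

theorem sg_not (b : Bool) : sg (!b) = -sg b := by
  cases b <;> simp [sg]

theorem sg_sq (b : Bool) : sg b ^ 2 = 1 := by
  cases b <;> simp [sg]

theorem ps_ins {s : Finset ι} {i : ι} (hi : i ∉ s) (x : ι → ℝ) (e : ι → Bool) :
    ps (insert i s) x e = ps s x e + sg (e i) * x i := by
  unfold ps
  rw [Finset.sum_insert hi]
  ring

theorem ps_fl {s : Finset ι} {i : ι} (hi : i ∉ s) (x : ι → ℝ) (e : ι → Bool) :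
    ps s x (fl i e) = ps s x e := by
  unfold ps fl
  refine Finset.sum_congr rfl fun j hj => ?_
  have h : j ≠ i := fun h => hi (h ▸ hj)
  rw [Function.update_of_ne h]

theorem ps_ins_fl {s : Finset ι} {i : ι} (hi : i ∉ s) (x : ι → ℝ) (e : ι → Bool) :
    ps (insert i s) x (fl i e) = ps s x e - sg (e i) * x i := by
  rw [ps_ins hi, ps_fl hi]
  have h : fl i e i = !e i := by
    unfold fl
    rw [Function.update_self]
  rw [h, sg_not]
  ring

variable [Fintype ι]

theorem two_sum (i : ι) (F : (ι → Bool) → ℝ) :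
    2 * ∑ e, F e = ∑ e, (F e + F (fl i e)) := by
  rw [Finset.sum_add_distrib]
  have h := Equiv.sum_comp (fl_fl i).toPerm F
  have h' : ∑ e, F (fl i e) = ∑ e, F e := h
  rw [h']
  ring

theorem exp_aux (μ X y : ℝ) :
    Real.exp (μ * (X + y) ^ 2) + Real.exp (μ * (X - y) ^ 2) ≤
      2 * (Real.exp (μ * y ^ 2) * Real.exp (μ * (1 + 2 * μ * y ^ 2) * X ^ 2)) := by
  have h := Real.cosh_le_exp_half_sq (2 * μ * y * X)
  have h1 : Real.exp (μ * (X + y) ^ 2) + Real.exp (μ * (X - y) ^ 2) =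
      2 * (Real.exp (μ * X ^ 2 + μ * y ^ 2) * Real.cosh (2 * μ * y * X)) := by
    rw [Real.cosh_eq]
    have e1 : μ * (X + y) ^ 2 = (μ * X ^ 2 + μ * y ^ 2) + 2 * μ * y * X := by ring
    have e2 : μ * (X - y) ^ 2 = (μ * X ^ 2 + μ * y ^ 2) + -(2 * μ * y * X) := by ring
    rw [e1, e2, Real.exp_add (μ * X ^ 2 + μ * y ^ 2) (2 * μ * y * X),
      Real.exp_add (μ * X ^ 2 + μ * y ^ 2) (-(2 * μ * y * X))]
    ring
  rw [h1, ← Real.exp_add]
  apply mul_le_mul_of_nonneg_left _ (by norm_num)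
  calc Real.exp (μ * X ^ 2 + μ * y ^ 2) * Real.cosh (2 * μ * y * X)
      ≤ Real.exp (μ * X ^ 2 + μ * y ^ 2) * Real.exp ((2 * μ * y * X) ^ 2 / 2) :=
        mul_le_mul_of_nonneg_left h (Real.exp_pos _).le
    _ = Real.exp (μ * y ^ 2 + μ * (1 + 2 * μ * y ^ 2) * X ^ 2) := by
        rw [← Real.exp_add]
        congr 1
        ring

theorem num_aux (a b : ℝ) (ha : 0 ≤ a) (hb : 0 ≤ b) (hab : a + b < 1) :
    Real.exp (a / 2) / Real.sqrt (1 - b * (1 + a)) ≤ 1 / Real.sqrt (1 - (a + b)) := by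
  have h1 : 0 < 1 - (a + b) := by linarith
  have h2 : 0 < 1 - b * (1 + a) := by nlinarith
  rw [div_le_div_iff₀ (Real.sqrt_pos.2 h2) (Real.sqrt_pos.2 h1), one_mul]
  have h3 : Real.exp (a / 2) = Real.sqrt (Real.exp a) := by
    rw [Real.sqrt_eq_rpow, ← Real.exp_mul]
    congr 1
    ring
  rw [h3, ← Real.sqrt_mul (Real.exp_pos a).le]
  apply Real.sqrt_le_sqrt
  have h4 : 1 + a ≤ Real.exp a := by
    have := Real.add_one_le_exp a
    linarith
  have h5 : Real.exp a * (1 - a) ≤ 1 := by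
    have h6 : 1 - a ≤ Real.exp (-a) := by
      have := Real.add_one_le_exp (-a)
      linarith
    calc Real.exp a * (1 - a) ≤ Real.exp a * Real.exp (-a) :=
          mul_le_mul_of_nonneg_left h6 (Real.exp_pos a).le
      _ = 1 := by rw [← Real.exp_add, add_neg_cancel, Real.exp_zero]
  nlinarith [mul_le_mul_of_nonneg_left h4 hb]

theorem exp_ind (x : ι → ℝ) (s : Finset ι) : ∀ μ : ℝ, 0 ≤ μ → 2 * μ * ∑ i ∈ s, x i ^ 2 < 1 →
    ∑ e : ι → Bool, Real.exp (μ * ps s x e ^ 2) ≤
      2 ^ Fintype.card ι / Real.sqrt (1 - 2 * μ * ∑ i ∈ s, x i ^ 2) := by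
  induction s using Finset.induction_on with
  | empty =>
    intro μ _ _
    have h : ∀ e : ι → Bool, Real.exp (μ * ps ∅ x e ^ 2) = 1 := by
      intro e
      simp [ps]
    rw [Finset.sum_congr rfl fun e _ => h e]
    simp
  | insert i s hi ih =>
    intro μ hμ hlt
    rw [Finset.sum_insert hi] at hlt ⊢
    set σ := ∑ i ∈ s, x i ^ 2 with hσ
    have hσ0 : 0 ≤ σ := Finset.sum_nonneg fun _ _ => sq_nonneg _
    set a := 2 * μ * x i ^ 2 with ha
    set b := 2 * μ * σ with hb
    have ha0 : 0 ≤ a := by positivity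
    have hb0 : 0 ≤ b := by positivity
    have hab : a + b < 1 := by
      rw [ha, hb]
      linarith
    have hμ' : 0 ≤ μ * (1 + a) := by positivity
    have hb' : 2 * (μ * (1 + a)) * σ = b * (1 + a) := by
      rw [hb]
      ring
    have hlt' : 2 * (μ * (1 + a)) * σ < 1 := by
      rw [hb']
      nlinarith
    have h1 := ih (μ * (1 + a)) hμ' hlt'
    rw [hb'] at h1
    have h2 : ∑ e : ι → Bool, Real.exp (μ * ps (insert i s) x e ^ 2) ≤
        Real.exp (a / 2) * ∑ e : ι → Bool, Real.exp (μ * (1 + a) * ps s x e ^ 2) := by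
      have h3 := two_sum i (fun e => Real.exp (μ * ps (insert i s) x e ^ 2))
      have h4 : ∑ e : ι → Bool, (Real.exp (μ * ps (insert i s) x e ^ 2) +
          Real.exp (μ * ps (insert i s) x (fl i e) ^ 2)) ≤
          ∑ e : ι → Bool, 2 * (Real.exp (a / 2) * Real.exp (μ * (1 + a) * ps s x e ^ 2)) := by
        apply Finset.sum_le_sum
        intro e _
        rw [ps_ins_fl hi, ps_ins hi]
        have h5 := exp_aux μ (ps s x e) (sg (e i) * x i)
        have e1 : (sg (e i) * x i) ^ 2 = x i ^ 2 := by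
          rw [mul_pow, sg_sq, one_mul]
        rw [e1] at h5
        have e2 : μ * x i ^ 2 = a / 2 := by
          rw [ha]
          ring
        rw [e2] at h5
        exact h5
      rw [← Finset.mul_sum, ← Finset.mul_sum] at h4
      have h3' : 2 * ∑ e : ι → Bool, Real.exp (μ * ps (insert i s) x e ^ 2) =
        ∑ e : ι → Bool, (Real.exp (μ * ps (insert i s) x e ^ 2) +
          Real.exp (μ * ps (insert i s) x (fl i e) ^ 2)) := h3
      linarith
    have h6 := num_aux a b ha0 hb0 hab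
    have e3 : 1 - 2 * μ * (x i ^ 2 + σ) = 1 - (a + b) := by
      rw [ha, hb]
      ring
    rw [e3]
    calc ∑ e : ι → Bool, Real.exp (μ * ps (insert i s) x e ^ 2)
        ≤ Real.exp (a / 2) * ∑ e : ι → Bool, Real.exp (μ * (1 + a) * ps s x e ^ 2) := h2
      _ ≤ Real.exp (a / 2) * (2 ^ Fintype.card ι / Real.sqrt (1 - b * (1 + a))) :=
          mul_le_mul_of_nonneg_left h1 (Real.exp_pos _).le
      _ = 2 ^ Fintype.card ι * (Real.exp (a / 2) / Real.sqrt (1 - b * (1 + a))) := by ring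
      _ ≤ 2 ^ Fintype.card ι * (1 / Real.sqrt (1 - (a + b))) :=
          mul_le_mul_of_nonneg_left h6 (by positivity)
      _ = 2 ^ Fintype.card ι / Real.sqrt (1 - (a + b)) := by ring

theorem sq_ind (x : ι → ℝ) (s : Finset ι) :
    ∑ e : ι → Bool, ps s x e ^ 2 = 2 ^ Fintype.card ι * ∑ i ∈ s, x i ^ 2 := by
  induction s using Finset.induction_on with
  | empty => simp [ps]
  | insert i s hi ih =>
    rw [Finset.sum_insert hi]
    have h3 := two_sum i (fun e => ps (insert i s) x e ^ 2)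
    have h4 : ∑ e : ι → Bool, (ps (insert i s) x e ^ 2 + ps (insert i s) x (fl i e) ^ 2) =
        2 * (∑ e : ι → Bool, ps s x e ^ 2 + ∑ _e : ι → Bool, x i ^ 2) := by
      rw [← Finset.sum_add_distrib, Finset.mul_sum]
      refine Finset.sum_congr rfl fun e _ => ?_
      rw [ps_ins_fl hi, ps_ins hi]
      have e1 : sg (e i) ^ 2 = 1 := sg_sq _
      linear_combination (2 * x i ^ 2) * e1
    rw [ih] at h4
    have h3' : 2 * ∑ e : ι → Bool, ps (insert i s) x e ^ 2 =
      ∑ e : ι → Bool, (ps (insert i s) x e ^ 2 + ps (insert i s) x (fl i e) ^ 2) := h3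
    have h5 : ∑ _e : ι → Bool, x i ^ 2 = 2 ^ Fintype.card ι * x i ^ 2 := by
      rw [Finset.sum_const, Finset.card_univ, Fintype.card_fun, Fintype.card_bool, nsmul_eq_mul]
      push_cast
      rfl
    rw [h5] at h4
    linarith

end CRE

theorem cr_exp : S_EXP := by
  intro ι _ _ x μ hμ hlt
  exact CRE.exp_ind x Finset.univ μ hμ hlt

theorem cr_sq : S_SQ := by
  intro ι _ _ x
  exact CRE.sq_ind x Finset.univ

end Pool.Agent.H766
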